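import Mathlib
import Pool.Agent.FC472D.Closure
import Pool.Agent.FC472D.Bridge

/-!
# Weak and strong `W^{1,n-1}` closures of diffeomorphisms of the ball differ for every `n ≥ 3`
-/

namespace Pool.Agent.Results.MP_fc472d_an.WeakNeStrong

open Pool.Agent.FC472D.Sob Metric
open scoped ENNReal

/-- For every `n ≥ 3`, with `p = n - 1` and `Ω = Ω' =` the unit ball of `ℝⁿ`, the (sequential) weak
`W^{1,p}` closure of the diffeomorphisms of `Ω` onto `Ω'` is different from their strong closure.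
This holds for diffeomorphisms of class `C^m` for every `1 ≤ m ≤ ∞`. -/
theorem result (n : ℕ) (hn : 3 ≤ n) (m : ℕ∞) (hm : 1 ≤ m) :
    weakClosure m (ball (0 : EuclideanSpace ℝ (Fin n)) 1) (ball 0 1) (n - 1 : ℕ) ≠
      strongClosure m (ball 0 1) (ball 0 1) (n - 1 : ℕ) := by
  have h1 : (1 : ℝ≥0∞) ≤ ((n - 1 : ℕ) : ℝ≥0∞) := by
    have : 1 ≤ n - 1 := by omega
    exact_mod_cast this
  haveI : Fact ((1 : ℝ≥0∞) ≤ ((n - 1 : ℕ) : ℝ≥0∞)) := ⟨h1⟩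
  obtain ⟨F, hF, hF'⟩ := Pool.Agent.FC472D.exists_example hn
    (rfl : ((n - 1 : ℕ) : ℝ≥0∞) = ((n - 1 : ℕ) : ℝ≥0∞)) m
  intro heq
  have hw := Pool.Agent.FC472D.mem_weakClosure hF
  rw [heq] at hw
  obtain ⟨G, hG, hlim⟩ := Pool.Agent.FC472D.of_mem_strongClosure isOpen_ball hw
  apply hF'
  refine ⟨G, fun k => ?_, hlim⟩
  obtain ⟨g, ⟨h1, h2, h, h3, h4, h5⟩, h6⟩ := hG k
  have hle : ((1 : ℕ∞) : WithTop ℕ∞) ≤ (m : WithTop ℕ∞) := by exact_mod_cast hm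
  exact ⟨g, ⟨h1.of_le hle, h2, h, h3.of_le hle, h4, h5⟩, h6⟩

end Pool.Agent.Results.MP_fc472d_an.WeakNeStrong
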